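import Mathlib

set_option autoImplicit false

namespace Pool.Agent.Results.MP_2da57a_co.NotAtomic

def IsCM {U n : Type} (f : Set (n → Set U)) : Prop :=
  (∀ L₀ L₁ : n → Set U, (fun i => L₀ i ∪ L₁ i) ∈ f ↔
    ∃ c : n → Bool, (fun i => if c i then L₁ i else L₀ i) ∈ f) ∧
  ∀ L : n → Set U, (∃ i, L i = ∅) → L ∉ f

def IsAtomCM {U n : Type} (a : Set (n → Set U)) : Prop :=
  IsCM a ∧ a ≠ ∅ ∧ ∀ g, IsCM g → g ≠ ∅ → g ⊆ a → g = a

theorem up {U n : Type} {f : Set (n → Set U)} (h : IsCM f) {L M : n → Set U} (hL : L ∈ f)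
    (hM : ∀ i, L i ⊆ M i) : M ∈ f := by
  have := (h.1 L M).2 ⟨fun _ => false, by simpa using hL⟩
  rwa [show (fun i => L i ∪ M i) = M from funext fun i => Set.union_eq_right.2 (hM i)] at this

theorem inter {U n : Type} {a : Set (n → Set U)} (h : IsAtomCM a) {L M : n → Set U} (hL : L ∈ a)
    (hM : M ∈ a) : (fun i => M i ∩ L i) ∈ a := by
  have := h.2.2 {M | (fun i => M i ∩ L i) ∈ a} ⟨fun L₀ L₁ => ?_, ?_⟩
    (Set.Nonempty.ne_empty ⟨L, by simpa using hL⟩)
    (fun M hM => up h.1 hM (fun i => Set.inter_subset_left))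
  · rw [← this] at hM; exact hM
  · simp only [Set.mem_ofPred_eq, Set.union_inter_distrib_right, h.1.1]
    refine exists_congr (fun c => ?_)
    rw [show (fun i => (if c i then L₁ i else L₀ i) ∩ L i) =
      fun i => if c i then L₁ i ∩ L i else L₀ i ∩ L i from funext fun i => by split_ifs <;> rfl]
  · rintro M ⟨i, hi⟩
    exact h.1.2 _ ⟨i, by simp [hi]⟩

theorem small {f : Set (ℕ → Set ℕ)} (h : IsCM f) (h0 : f ≠ ∅) (i : ℕ) (s : Finset ℕ) :
    ∃ A : Set ℕ, Function.update (fun _ => Set.univ) i A ∈ f ∧ (A ∩ s).Subsingleton := by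
  induction s using Finset.induction_on with
  | empty =>
    obtain ⟨L, hL⟩ := Set.nonempty_iff_ne_empty.2 h0
    exact ⟨Set.univ, up h hL (fun j => by simp), by simp⟩
  | insert a s _ ih =>
    obtain ⟨A, h1, h2⟩ := ih
    obtain ⟨c, hc⟩ := (h.1 (Function.update (fun _ => Set.univ) i {a})
      (Function.update (fun _ => Set.univ) i (A \ {a}))).1 (up h h1 (fun j => by
        by_cases e : j = i
        · subst e; simp
        · simp [e]))
    by_cases e : c i
    · refine ⟨A \ {a}, up h hc (fun j => ?_), h2.anti ?_⟩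
      · by_cases e' : j = i
        · subst e'; simp [e]
        · simp [e']
      · rintro x ⟨⟨h3, h4⟩, h5⟩
        exact ⟨h3, by simpa [show x ≠ a from h4] using h5⟩
    · refine ⟨{a}, up h hc (fun j => ?_), Set.subsingleton_singleton.anti Set.inter_subset_left⟩
      by_cases e' : j = i
      · subst e'; simp [e]
      · simp [e']

theorem result : ∃ (U n : Type) (f : {g : Set (n → Set U) // IsCM g}), f.1 ≠ ∅ ∧
    (¬ ∃ a : {g : Set (n → Set U) // IsCM g}, IsAtomCM a.1 ∧ a ≤ f) ∧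
    ¬ IsLUB {a : {g : Set (n → Set U) // IsCM g} | IsAtomCM a.1 ∧ a ≤ f} f := by
  let f : Set (ℕ → Set ℕ) := {L | ∃ k : ℕ, ∀ i, i + 1 ≤ k * (L i ∩ Finset.range (i + 1)).ncard}
  have fin : ∀ (A : Set ℕ) (i : ℕ), (A ∩ Finset.range (i + 1)).Finite :=
    fun A i => (Finset.finite_toSet _).inter_of_right _
  have hf : IsCM f := by
    refine ⟨fun L₀ L₁ => ⟨?_, ?_⟩, ?_⟩
    · rintro ⟨k, hk⟩
      refine ⟨fun i => decide ((L₀ i ∩ Finset.range (i + 1)).ncard ≤
        (L₁ i ∩ Finset.range (i + 1)).ncard), k * 2, fun i => (hk i).trans ?_⟩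
      rw [mul_assoc]
      refine Nat.mul_le_mul_left _ ?_
      simp only [Set.union_inter_distrib_right, decide_eq_true_eq]
      refine (Set.ncard_union_le _ _).trans ?_
      split_ifs <;> omega
    · rintro ⟨c, k, hk⟩
      refine ⟨k, fun i => (hk i).trans (Nat.mul_le_mul_left _ (Set.ncard_le_ncard
        (Set.inter_subset_inter_left _ ?_) (fin _ i)))⟩
      beta_reduce
      split_ifs <;> simp
    · rintro L ⟨i, hi⟩ ⟨k, hk⟩
      simpa [hi] using hk i
  have h0 : f ≠ ∅ := Set.Nonempty.ne_empty ⟨fun _ => Set.univ, 1, fun i => by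
    rw [Set.univ_inter, Set.ncard_coe_finset]; simp⟩
  have h1 : ¬ ∃ a : {g : Set (ℕ → Set ℕ) // IsCM g}, IsAtomCM a.1 ∧ a ≤ ⟨f, hf⟩ := by
    rintro ⟨⟨a, h'⟩, ha, hle⟩
    replace ha : IsAtomCM a := ha
    choose A h1 h2 using fun i => small ha.1 ha.2.1 i (Finset.range (i + 1))
    obtain ⟨c, hc⟩ := (ha.1.1 A (fun i => (A i)ᶜ)).1 (up ha.1 (h1 0) (fun i => by simp))
    have c0 : ∀ i, c i = false := by
      intro i
      by_contra e
      refine ha.1.2 _ ⟨i, ?_⟩ (inter ha hc (h1 i))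
      simp [show c i = true by simpa using e]
    obtain ⟨k, hk⟩ := hle hc
    have h3 := hk k
    have h4 := (Set.ncard_le_one (fin _ k)).2 (fun x hx y hy => h2 k hx hy)
    simp only [c0, Bool.false_eq_true, if_false] at h3
    nlinarith
  refine ⟨ℕ, ℕ, ⟨f, hf⟩, h0, h1, fun h => h0 ?_⟩
  exact Set.subset_empty_iff.1 (h.2 (show (⟨∅, by simp [IsCM]⟩ : {g : Set (ℕ → Set ℕ) // IsCM g})
    ∈ upperBounds _ from fun a ha => (h1 ⟨a, ha⟩).elim))

end Pool.Agent.Results.MP_2da57a_co.NotAtomic
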